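import Mathlib
import Pool.Agent.W187.UR.NF

/-!
# The logarithm of an Euler product with real coefficients as a generalised Dirichlet series
-/

set_option autoImplicit false

namespace Pool.Agent.V5helper41.LQ

open Complex Filter Topology Set
open Pool.Agent.W189.ML Pool.Agent.W189.LC Pool.Agent.W187.UR

/-- the prime powers `p ^ (k + 1)` -/
abbrev Ix : Type := Nat.Primes × ℕ

/-- the logarithm of the prime power -/
noncomputable def lm (x : Ix) : ℝ := (x.2 + 1) * Real.log ((x.1 : ℕ) : ℝ)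

/-- the power sum -/
noncomputable def pw (A : Nat.Primes → Multiset ℂ) (x : Ix) : ℂ :=
  ((A x.1).map fun α => α ^ (x.2 + 1)).sum

/-- the coefficient at the prime power -/
noncomputable def cf (A : Nat.Primes → Multiset ℂ) (m : ℕ) (x : Ix) : ℝ :=
  (pw A x).re / ((x.2 + 1) * (((x.1 : ℕ) : ℝ) ^ m) ^ (x.2 + 1))

/-- the hypotheses -/
structure Tame (A : Nat.Primes → Multiset ℂ) (m b : ℕ) (S : Finset Nat.Primes) : Prop where
  card : ∀ p, (A p).card ≤ b
  norm : ∀ p, ∀ α ∈ A p, ‖α‖ < ((p : ℕ) : ℝ) ^ m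
  temp : ∀ p ∉ S, ∀ α ∈ A p, ‖α‖ ≤ ((p : ℕ) : ℝ) ^ ((m : ℝ) - 1 / 2)
  real : ∀ x, (pw A x).im = 0

variable {A : Nat.Primes → Multiset ℂ} {m b : ℕ} {S : Finset Nat.Primes}

lemma norm_sum_le {B : Multiset ℂ} {r : ℝ} (h : ∀ α ∈ B, ‖α‖ ≤ r) :
    ‖B.sum‖ ≤ B.card * r := by
  induction B using Multiset.induction_on with
  | empty => simp
  | cons a B ih =>
    rw [Multiset.sum_cons, Multiset.card_cons]
    refine (norm_add_le _ _).trans ?_
    have h1 := h a (Multiset.mem_cons_self a B)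
    have h2 := ih fun α hα => h α (Multiset.mem_cons_of_mem hα)
    push_cast
    linarith

lemma p_pos (p : Nat.Primes) : (0 : ℝ) < ((p : ℕ) : ℝ) := by exact_mod_cast p.2.pos

lemma p_two (p : Nat.Primes) : (2 : ℝ) ≤ ((p : ℕ) : ℝ) := by exact_mod_cast p.2.two_le

lemma lm_nonneg (x : Ix) : 0 ≤ lm x := by
  unfold lm
  have h1 : 0 ≤ Real.log ((x.1 : ℕ) : ℝ) := Real.log_nonneg (by linarith [p_two x.1])
  positivity

lemma norm_pw_le {r : ℝ} {x : Ix} (hb : (A x.1).card ≤ b) (h : ∀ α ∈ A x.1, ‖α‖ ≤ r) (hr : 0 ≤ r) :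
    ‖pw A x‖ ≤ b * r ^ (x.2 + 1) := by
  have h0 : (0 : ℝ) ≤ r ^ (x.2 + 1) := by positivity
  refine (norm_sum_le (r := r ^ (x.2 + 1)) fun α hα => ?_).trans ?_
  · obtain ⟨β, hβ, rfl⟩ := Multiset.mem_map.1 hα
    rw [norm_pow]
    exact pow_le_pow_left₀ (norm_nonneg _) (h β hβ) _
  · rw [Multiset.card_map]
    refine mul_le_mul_of_nonneg_right ?_ h0
    exact_mod_cast hb

lemma abs_cf_le {r : ℝ} {x : Ix} (hb : (A x.1).card ≤ b)
    (h : ∀ α ∈ A x.1, ‖α‖ ≤ ((x.1 : ℕ) : ℝ) ^ m * r) (hr : 0 ≤ r) :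
    |cf A m x| ≤ b * r ^ (x.2 + 1) := by
  have hp0 := p_pos x.1
  have hp : (0 : ℝ) < (((x.1 : ℕ) : ℝ) ^ m) ^ (x.2 + 1) := by positivity
  have hk : (1 : ℝ) ≤ (x.2 : ℝ) + 1 := by
    have : (0 : ℝ) ≤ (x.2 : ℝ) := Nat.cast_nonneg _
    linarith
  unfold cf
  rw [abs_div, abs_of_pos (by positivity : 0 < ((x.2 : ℝ) + 1) * (((x.1 : ℕ) : ℝ) ^ m) ^ (x.2 + 1)),
    div_le_iff₀ (by positivity)]
  have h1 := (Complex.abs_re_le_norm (pw A x)).trans
    (norm_pw_le hb h (mul_nonneg (by positivity) hr))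
  rw [mul_pow] at h1
  have hb0 : (0 : ℝ) ≤ b := Nat.cast_nonneg _
  have h2 : 0 ≤ (b : ℝ) * r ^ (x.2 + 1) * (((x.1 : ℕ) : ℝ) ^ m) ^ (x.2 + 1) := by positivity
  nlinarith

lemma exp_lm (σ : ℝ) (x : Ix) :
    Real.exp (-(σ * lm x)) = (((x.1 : ℕ) : ℝ) ^ (-σ)) ^ (x.2 + 1) := by
  have hp := p_pos x.1
  unfold lm
  rw [Real.rpow_def_of_pos hp, ← Real.exp_nat_mul]
  congr 1
  push_cast
  ring

/-- absolute convergence -/
theorem summable_geom {a : Nat.Primes → ℝ} (h0 : ∀ p, 0 ≤ a p) (h1 : ∀ p, a p ≤ 3 / 4)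
    (hs : Summable a) : Summable fun x : Ix => a x.1 ^ (x.2 + 1) := by
  have h0' : ∀ x : Ix, 0 ≤ a x.1 ^ (x.2 + 1) := fun x => pow_nonneg (h0 x.1) _
  rw [summable_prod_of_nonneg h0']
  have hk : ∀ p : Nat.Primes, HasSum (fun k : ℕ => a p ^ (k + 1)) (a p * (1 - a p)⁻¹) := by
    intro p
    have h3 := (hasSum_geometric_of_lt_one (h0 p) (by linarith [h1 p])).mul_left (a p)
    refine h3.congr_fun fun k => ?_
    rw [pow_succ, mul_comm]
  refine ⟨fun p => (hk p).summable, ?_⟩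
  refine Summable.of_nonneg_of_le (fun p => tsum_nonneg fun k => h0' (p, k)) (fun p => ?_)
    (hs.mul_left 4)
  rw [(hk p).tsum_eq]
  have h5 : (1 - a p)⁻¹ ≤ 4 := by
    rw [inv_le_comm₀ (by linarith [h1 p]) (by norm_num)]
    linarith [h1 p]
  nlinarith [h0 p]

lemma rpow_le {σ : ℝ} (hσ : 1 / 2 < σ) (p : Nat.Primes) : ((p : ℕ) : ℝ) ^ (-σ) ≤ 3 / 4 := by
  have h2 := p_two p
  have h1 : ((p : ℕ) : ℝ) ^ (-σ) ≤ ((p : ℕ) : ℝ) ^ (-(1 / 2) : ℝ) :=
    Real.rpow_le_rpow_of_exponent_le (by linarith) (by linarith)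
  refine h1.trans ?_
  rw [Real.rpow_neg (by linarith), ← Real.sqrt_eq_rpow, inv_le_comm₀ (by positivity) (by norm_num)]
  have h3 : (4 / 3 : ℝ) ≤ √2 := Real.le_sqrt_of_sq_le (by norm_num)
  calc (3 / 4 : ℝ)⁻¹ = 4 / 3 := by norm_num
    _ ≤ √2 := h3
    _ ≤ √((p : ℕ) : ℝ) := Real.sqrt_le_sqrt h2

open scoped Classical in
theorem summable_cf (H : Tame A m b S) {σ : ℝ} (hσ : 1 / 2 < σ) :
    Summable fun x : Ix => |cf A m x| * Real.exp (-(σ * lm x)) := by
  set a : Nat.Primes → ℝ := fun p => if p ∈ S then ((p : ℕ) : ℝ) ^ (-σ) else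
    ((p : ℕ) : ℝ) ^ (-(σ + 1 / 2)) with ha
  have ha0 : ∀ p, 0 ≤ a p := fun p => by
    have := p_pos p
    simp only [ha]
    split_ifs <;> positivity
  have ha1 : ∀ p, a p ≤ 3 / 4 := fun p => by
    simp only [ha]
    split_ifs
    · exact rpow_le hσ p
    · exact rpow_le (by linarith) p
  have has : Summable a := by
    have h1 : Summable fun p : Nat.Primes => ((p : ℕ) : ℝ) ^ (-(σ + 1 / 2)) :=
      Nat.Primes.summable_rpow.2 (by linarith)
    have h2 : Summable fun p : Nat.Primes => if p ∈ S then ((p : ℕ) : ℝ) ^ (-σ) else 0 :=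
      summable_of_ne_finset_zero (s := S) fun p hp => if_neg hp
    refine Summable.of_nonneg_of_le ha0 (fun p => ?_) (h1.add h2)
    have h3 : 0 ≤ ((p : ℕ) : ℝ) ^ (-(σ + 1 / 2)) := by
      have := p_pos p
      positivity
    simp only [ha]
    split_ifs
    · linarith
    · linarith
  refine Summable.of_nonneg_of_le (fun x => by positivity) (fun x => ?_)
    ((summable_geom ha0 ha1 has).mul_left (b : ℝ))
  have hp := p_pos x.1
  rw [exp_lm]
  simp only [ha]
  by_cases hx : x.1 ∈ S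
  · rw [if_pos hx]
    refine mul_le_mul_of_nonneg_right ?_ (by positivity)
    have h1 := abs_cf_le (m := m) (r := 1) (x := x) (H.card x.1) (fun α hα => by
      rw [mul_one]
      exact (H.norm x.1 α hα).le) zero_le_one
    rwa [one_pow, mul_one] at h1
  · rw [if_neg hx]
    have h1 := abs_cf_le (m := m) (r := ((x.1 : ℕ) : ℝ) ^ (-(1 / 2) : ℝ)) (x := x) (H.card x.1)
      (fun α hα => by
        have h2 := H.temp x.1 hx α hα
        rwa [sub_eq_add_neg, Real.rpow_add hp, Real.rpow_natCast] at h2) (by positivity)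
    have h3 : (((x.1 : ℕ) : ℝ) ^ (-(σ + 1 / 2))) ^ (x.2 + 1) =
        (((x.1 : ℕ) : ℝ) ^ (-(1 / 2) : ℝ)) ^ (x.2 + 1) * (((x.1 : ℕ) : ℝ) ^ (-σ)) ^ (x.2 + 1) := by
      rw [← mul_pow, ← Real.rpow_add hp]
      congr 2
      ring
    rw [h3, ← mul_assoc]
    exact mul_le_mul_of_nonneg_right h1 (by positivity)

/-! ### the Euler product -/

lemma neg_log_series {z : ℂ} (hz : ‖z‖ < 1) :
    HasSum (fun k : ℕ => z ^ (k + 1) / ((k : ℂ) + 1)) (-log (1 - z)) := by
  have h1 := Complex.hasSum_taylorSeries_neg_log hz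
  rw [hasSum_nat_add_iff' 1 |>.symm] at h1
  simpa using h1

lemma multiset_series (B : Multiset ℂ) (y : ℂ) (h : ∀ α ∈ B, ‖α * y‖ < 1) :
    HasSum (fun k : ℕ => (B.map fun α => α ^ (k + 1)).sum / ((k : ℂ) + 1) * y ^ (k + 1))
      (B.map fun α => -log (1 - α * y)).sum := by
  induction B using Multiset.induction_on with
  | empty => simpa using (hasSum_zero : HasSum (fun _ : ℕ => (0 : ℂ)) 0)
  | cons a B ih =>
    have h1 := neg_log_series (h a (Multiset.mem_cons_self a B))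
    have h2 := ih fun α hα => h α (Multiset.mem_cons_of_mem hα)
    simp only [Multiset.map_cons, Multiset.sum_cons]
    refine (h1.add h2).congr_fun fun k => ?_
    rw [mul_pow]
    ring

lemma exp_multiset (B : Multiset ℂ) (y : ℂ) (h : ∀ α ∈ B, ‖α * y‖ < 1) :
    exp (B.map fun α => -log (1 - α * y)).sum = (B.map fun α => (1 - α * y)⁻¹).prod := by
  induction B using Multiset.induction_on with
  | empty => simp
  | cons a B ih =>
    have h1 : 1 - a * y ≠ 0 := by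
      intro h0
      have h2 := h a (Multiset.mem_cons_self a B)
      rw [← sub_eq_zero.1 h0, norm_one] at h2
      exact lt_irrefl _ h2
    rw [Multiset.map_cons, Multiset.map_cons, Multiset.sum_cons, Multiset.prod_cons, exp_add,
      ih fun α hα => h α (Multiset.mem_cons_of_mem hα), exp_neg, exp_log h1]

lemma cpow_lm (w : ℂ) (x : Ix) : exp (-(w * lm x)) = (((x.1 : ℕ) : ℂ) ^ (-w)) ^ (x.2 + 1) := by
  have hp : ((x.1 : ℕ) : ℂ) ≠ 0 := by exact_mod_cast x.1.2.ne_zero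
  unfold lm
  rw [Complex.cpow_def_of_ne_zero hp, ← Complex.exp_nat_mul]
  congr 1
  push_cast
  ring

theorem eq_exp (H : Tame A m b S) {L : ℂ → ℂ} {w : ℂ} (hw : 1 / 2 < w.re)
    (hL : HasProd (fun p : Nat.Primes => ((A p).map fun α =>
      (1 - α * ((p : ℕ) : ℂ) ^ (-((m : ℂ) + w)))⁻¹).prod) (L (m + w))) :
    L (m + w) = exp (ser lm (cf A m) w) := by
  -- the terms
  have hterm : ∀ x : Ix, (cf A m x : ℂ) * exp (-(w * lm x)) =
      ((A x.1).map fun α => α ^ (x.2 + 1)).sum / ((x.2 : ℂ) + 1) *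
        (((x.1 : ℕ) : ℂ) ^ (-((m : ℂ) + w))) ^ (x.2 + 1) := by
    intro x
    have hp : ((x.1 : ℕ) : ℂ) ≠ 0 := by exact_mod_cast x.1.2.ne_zero
    have h1 : ((pw A x).re : ℂ) = pw A x := by
      apply Complex.ext
      · simp
      · simp [H.real x]
    rw [cpow_lm]
    unfold cf
    push_cast
    rw [h1, neg_add, Complex.cpow_add _ _ hp, Complex.cpow_neg _ (m : ℂ), Complex.cpow_natCast,
      mul_pow, inv_pow]
    unfold pw
    have h2 : ((((x.1 : ℕ) : ℂ) ^ m) ^ (x.2 + 1)) ≠ 0 := pow_ne_zero _ (pow_ne_zero _ hp)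
    have h3 : ((x.2 : ℂ) + 1) ≠ 0 := by exact_mod_cast Nat.succ_ne_zero x.2
    field_simp
  have hnorm : ∀ (p : Nat.Primes), ∀ α ∈ A p, ‖α * ((p : ℕ) : ℂ) ^ (-((m : ℂ) + w))‖ < 1 := by
    intro p α hα
    have hp := p_pos p
    have h1 : ‖((p : ℕ) : ℂ) ^ (-((m : ℂ) + w))‖ = ((p : ℕ) : ℝ) ^ (-((m : ℝ) + w.re)) := by
      have h2 : ((p : ℕ) : ℂ) = ((((p : ℕ) : ℝ)) : ℂ) := by push_cast; rfl
      rw [h2, Complex.norm_cpow_eq_rpow_re_of_pos hp]
      simp
    rw [norm_mul, h1]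
    have h2 := H.norm p α hα
    have h3 : ((p : ℕ) : ℝ) ^ m * ((p : ℕ) : ℝ) ^ (-((m : ℝ) + w.re)) ≤ 1 := by
      rw [← Real.rpow_natCast, ← Real.rpow_add hp]
      refine Real.rpow_le_one_of_one_le_of_nonpos (by linarith [p_two p]) (by linarith)
    have h4 : 0 < ((p : ℕ) : ℝ) ^ (-((m : ℝ) + w.re)) := by positivity
    calc ‖α‖ * ((p : ℕ) : ℝ) ^ (-((m : ℝ) + w.re)) <
        ((p : ℕ) : ℝ) ^ m * ((p : ℕ) : ℝ) ^ (-((m : ℝ) + w.re)) :=
          mul_lt_mul_of_pos_right h2 h4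
      _ ≤ 1 := h3
  have hsum : Summable fun x : Ix => (cf A m x : ℂ) * exp (-(w * lm x)) := by
    refine Summable.of_norm_bounded (summable_cf H hw) fun x => ?_
    rw [norm_mul, Complex.norm_real, Real.norm_eq_abs, Complex.norm_exp]
    refine le_of_eq ?_
    congr 2
    simp
  have hS : HasSum (fun x : Ix => (cf A m x : ℂ) * exp (-(w * lm x))) (ser lm (cf A m) w) :=
    hsum.hasSum
  have hfib : ∀ p : Nat.Primes, HasSum (fun k : ℕ => (cf A m (p, k) : ℂ) * exp (-(w * lm (p, k))))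
      ((A p).map fun α => -log (1 - α * ((p : ℕ) : ℂ) ^ (-((m : ℂ) + w)))).sum := by
    intro p
    refine (multiset_series (A p) _ (hnorm p)).congr_fun fun k => ?_
    exact hterm (p, k)
  have h5 := hS.prod_fiberwise hfib
  have h6 := h5.cexp
  refine hL.unique (h6.congr_fun fun p => ?_)
  exact (exp_multiset (A p) _ (hnorm p)).symm

/-- the series is analytic -/
lemma ser_an (H : Tame A m b S) {w : ℂ} (hw : 1 / 2 < w.re) :
    AnalyticAt ℂ (ser lm (cf A m)) w := by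
  have h1 := Pool.Agent.W189.NF.ser_analytic (lam := fun x => lm x / 2) (c := cf A m)
    (fun x => by have := lm_nonneg x; positivity) (fun σ hσ => by
      have h2 := summable_cf H (σ := σ / 2) (by linarith)
      refine h2.congr fun x => ?_
      congr 3
      ring) (w := 2 * w) (by
      simp
      linarith)
  have h3 : ser lm (cf A m) = fun z => ser (fun x => lm x / 2) (cf A m) (2 * z) := by
    funext z
    unfold ser
    refine tsum_congr fun x => ?_
    congr 3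
    push_cast
    ring
  rw [h3]
  exact h1.comp (f := fun z : ℂ => 2 * z) (by fun_prop)

/-- the data -/
theorem mdata (H : Tame A m b S) {L : ℂ → ℂ}
    (hmer : ∀ x ∈ Icc (0 : ℝ) (1 / 2), MeromorphicAt L ((m : ℂ) + x))
    (hL : ∀ s : ℂ, (m : ℝ) + 1 / 2 < s.re → HasProd (fun p : Nat.Primes => ((A p).map fun α =>
      (1 - α * ((p : ℕ) : ℂ) ^ (-s))⁻¹).prod) (L s)) :
    MData lm (cf A m) (fun w => L (m + w)) where
  lam_pos := lm_nonneg
  sum := fun σ hσ => summable_cf H (by linarith)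
  mero := fun x hx => by
    have h2 : AnalyticAt ℂ (fun w : ℂ => (m : ℂ) + w) (x : ℂ) := by fun_prop
    by_cases h : x ≤ 1 / 2
    · exact (hmer x ⟨hx.1, h⟩).comp_analyticAt h2
    · push Not at h
      have h3 : AnalyticAt ℂ (fun w => exp (ser lm (cf A m) w)) (x : ℂ) :=
        (ser_an H (w := (x : ℂ)) (by simpa using h)).cexp
      have hopen : IsOpen {z : ℂ | 1 / 2 < z.re} := isOpen_lt continuous_const Complex.continuous_re
      refine (h3.congr ?_).meromorphicAt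
      filter_upwards [hopen.mem_nhds (show 1 / 2 < ((x : ℂ)).re by simpa using h)] with w hw
      have hw : 1 / 2 < w.re := hw
      exact (eq_exp H hw (hL _ (by
        rw [Complex.add_re, Complex.natCast_re]
        linarith))).symm
  eq := fun w hw => eq_exp H (by linarith) (hL _ (by
    rw [Complex.add_re, Complex.natCast_re]
    linarith))

end Pool.Agent.V5helper41.LQ
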