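import Mathlib
import Pool.Agent.V5helper41.LQ.Data

/-!
# The law for the rotated sums over the prime powers
-/

set_option autoImplicit false

namespace Pool.Agent.V5helper41.LQ

open Complex Filter Topology Set Asymptotics
open Pool.Agent.W189.ML Pool.Agent.W189.LC Pool.Agent.W187.UR

variable {A : Nat.Primes → Multiset ℂ} {m b : ℕ} {S : Finset Nat.Primes}

/-- the term of the rotated sum -/
noncomputable def trm (A : Nat.Primes → Multiset ℂ) (m : ℕ) (c T : ℝ) (x : Ix) : ℂ :=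
  pw A x / ((x.2 + 1) * (((x.1 : ℕ) : ℂ) ^ m) ^ (x.2 + 1)) *
    (exp ((c * (lm x / T) : ℝ) * I) * ((Real.Gamma (1 + lm x / T))⁻¹ : ℝ))

lemma trm_eq (H : Tame A m b S) (c T : ℝ) (x : Ix) :
    trm A m c T x = (cf A m x : ℂ) * exp ((c * (lm x / T) : ℝ) * I) * (om (lm x / T) : ℂ) := by
  have h1 : ((pw A x).re : ℂ) = pw A x := by
    apply Complex.ext
    · simp
    · simp [H.real x]
  unfold trm cf om
  rw [mul_assoc]
  congr 1
  push_cast
  rw [h1]

lemma cmean_trm (H : Tame A m b S) (c T : ℝ) : cmean lm (cf A m) c T = ∑' x, trm A m c T x :=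
  tsum_congr fun x => (trm_eq H c T x).symm

/-- the numbers of the zeros minus the number of the poles on the real axis to the right of `m` -/
noncomputable def exc (L : ℂ → ℂ) (m : ℕ) : ℤ :=
  ∑ᶠ σ ∈ Ioc ((m : ℝ)) (m + 1 / 2), (meromorphicOrderAt L (σ : ℂ)).untop₀

lemma ord_shift (L : ℂ → ℂ) (m : ℕ) (x : ℝ) :
    meromorphicOrderAt (fun w => L ((m : ℂ) + w)) (x : ℂ) =
      meromorphicOrderAt L ((m + x : ℝ) : ℂ) := by
  have h1 : (fun w : ℂ => L ((m : ℂ) + w)) = L ∘ (· + (m : ℂ)) := by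
    funext w; simp [add_comm]
  rw [h1, meromorphicOrderAt_comp_add_const_eq_meromorphicOrderAt]
  push_cast
  rw [add_comm]

lemma ord_shift0 (L : ℂ → ℂ) (m : ℕ) :
    meromorphicOrderAt (fun w => L ((m : ℂ) + w)) 0 = meromorphicOrderAt L m := by
  have := ord_shift L m 0
  simpa using this

lemma lead_shift0 (L : ℂ → ℂ) (m : ℕ) :
    meromorphicTrailingCoeffAt (fun w => L ((m : ℂ) + w)) 0 = meromorphicTrailingCoeffAt L m := by
  have h1 : (fun w : ℂ => L ((m : ℂ) + w)) = L ∘ (· + (m : ℂ)) := by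
    funext w; simp [add_comm]
  rw [h1, meromorphicTrailingCoeffAt_comp_add_const_eq_meromorphicTrailingCoeffAt]
  simp

/-- the excess, shifted -/
lemma exc_shift {L : ℂ → ℂ} (h0 : ∀ x : ℝ, 1 / 2 < x → x ≤ 1 →
      meromorphicOrderAt (fun w => L ((m : ℂ) + w)) (x : ℂ) = 0) :
    (∑ᶠ x ∈ Ioc (0 : ℝ) 1, (meromorphicOrderAt (fun w => L ((m : ℂ) + w)) (x : ℂ)).untop₀) =
      exc L m := by
  have h1 : (∑ᶠ x ∈ Ioc (0 : ℝ) 1, (meromorphicOrderAt (fun w => L ((m : ℂ) + w)) (x : ℂ)).untop₀) =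
      ∑ᶠ x ∈ Ioc (0 : ℝ) (1 / 2),
        (meromorphicOrderAt (fun w => L ((m : ℂ) + w)) (x : ℂ)).untop₀ := by
    refine finsum_mem_inter_support_eq' _ _ _ fun x hx => ?_
    rw [Function.mem_support] at hx
    constructor
    · intro h
      refine ⟨h.1, ?_⟩
      by_contra h3
      push Not at h3
      rw [h0 x h3 h.2] at hx
      simp at hx
    · intro h
      exact ⟨h.1, by linarith [h.2]⟩
  rw [h1]
  unfold exc
  have h3 : Ioc ((m : ℝ)) (m + 1 / 2) = (fun x : ℝ => (m : ℝ) + x) '' Ioc (0 : ℝ) (1 / 2) := by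
    rw [Set.image_const_add_Ioc, add_zero]
  rw [h3, finsum_mem_image ((add_right_injective (m : ℝ)).injOn)]
  refine finsum_mem_congr rfl fun x _ => ?_
  rw [ord_shift]

/-- **The law.** -/
theorem law (H : Tame A m b S) {L : ℂ → ℂ}
    (hmer : ∀ x ∈ Icc (0 : ℝ) (1 / 2), MeromorphicAt L ((m : ℂ) + x))
    (hL : ∀ s : ℂ, (m : ℝ) + 1 / 2 < s.re → HasProd (fun p : Nat.Primes => ((A p).map fun α =>
      (1 - α * ((p : ℕ) : ℂ) ^ (-s))⁻¹).prod) (L s)) :
    ∃ (r : ℤ) (l : ℝ), meromorphicOrderAt L m = r ∧ meromorphicTrailingCoeffAt L m = l ∧ l ≠ 0 ∧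
      l = (-1) ^ (exc L m) * |l| ∧ ∀ c : ℝ, Real.pi / 2 < c →
        (fun T : ℝ => (∑' x, trm A m c T x) + r * (Real.log T - Lam c) - Real.log |l| +
          Real.pi * exc L m * I) =O[atTop] (fun T : ℝ => 1 / T) := by
  have D := mdata H hmer hL
  have htop := D.order_ne_top (x := 0) ⟨le_rfl, by norm_num⟩
  obtain ⟨r, hr⟩ := WithTop.ne_top_iff_exists.1 htop
  rw [Complex.ofReal_zero] at hr
  have hright : ∀ x : ℝ, 1 / 2 < x → x ≤ 1 →
      meromorphicOrderAt (fun w => L ((m : ℂ) + w)) (x : ℂ) = 0 := by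
    intro x hx _
    have h3 : AnalyticAt ℂ (fun w => exp (ser lm (cf A m) w)) (x : ℂ) :=
      (ser_an H (w := (x : ℂ)) (by simpa using hx)).cexp
    have hopen : IsOpen {z : ℂ | 1 / 2 < z.re} := isOpen_lt continuous_const Complex.continuous_re
    have h4 : (fun w => exp (ser lm (cf A m) w)) =ᶠ[𝓝 (x : ℂ)] fun w => L ((m : ℂ) + w) := by
      filter_upwards [hopen.mem_nhds (show 1 / 2 < ((x : ℂ)).re by simpa using hx)] with w hw
      have hw : 1 / 2 < w.re := hw
      exact (eq_exp H hw (hL _ (by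
        rw [Complex.add_re, Complex.natCast_re]
        linarith))).symm
    have h5 := h3.congr h4
    rw [h5.meromorphicOrderAt_eq, h5.analyticOrderAt_eq_zero.2 (by
      have h6 := h4.self_of_nhds
      beta_reduce at h6
      rw [← h6]
      exact Complex.exp_ne_zero _)]
    rfl
  obtain ⟨r₀, -, -, hr0, hi0, -, -, -⟩ := mdata_rot D (m := r) hr.symm
    (γ := Real.pi) (by have := Real.pi_pos; linarith)
  rw [lead_shift0] at hr0
  rw [exc_shift hright] at hi0
  set l : ℂ := meromorphicTrailingCoeffAt L m with hl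
  have hl0 : l ≠ 0 := by rw [← hr0]; exact Complex.exp_ne_zero _
  have key : ∀ r₁ : ℂ, Complex.exp r₁ = l → r₁.im = -Real.pi * (exc L m : ℤ) →
      l = ((l.re : ℝ) : ℂ) ∧ Real.log |l.re| = r₁.re ∧ l.re = (-1) ^ (exc L m) * |l.re| := by
    intro r₁ hr1 hi1
    have hlr : l = (((-1 : ℝ) ^ (exc L m) * Real.exp r₁.re : ℝ) : ℂ) := by
      have h1 : r₁ = (r₁.re : ℂ) + (exc L m : ℂ) * (-(Real.pi * Complex.I)) := by
        apply Complex.ext
        · simp
        · rw [hi1]; simp; ring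
      rw [← hr1]
      nth_rewrite 1 [h1]
      rw [Complex.exp_add, Complex.exp_int_mul, Complex.exp_neg, Complex.exp_pi_mul_I]
      push_cast
      norm_num
      ring
    have hlre : l = ((l.re : ℝ) : ℂ) := by
      rw [hlr, Complex.ofReal_re]
    have h1 : |l.re| = Real.exp r₁.re := by
      rw [hlr, Complex.ofReal_re, abs_mul, Real.abs_exp]
      have : |(-1 : ℝ) ^ (exc L m)| = 1 := by
        rw [abs_zpow]; simp
      rw [this, one_mul]
    refine ⟨hlre, by rw [h1, Real.log_exp], ?_⟩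
    rw [h1]
    nth_rewrite 1 [hlr]
    rw [Complex.ofReal_re]
  obtain ⟨hlre, -, hsg⟩ := key r₀ hr0 hi0
  have hlre0 : l.re ≠ 0 := by
    intro h1
    rw [h1, Complex.ofReal_zero] at hlre
    exact hl0 hlre
  refine ⟨r, l.re, by rw [← ord_shift0]; exact hr.symm, hlre, hlre0, hsg, fun c hc => ?_⟩
  obtain ⟨r₁, C, T₀, hr1, hi1, hC, hT₀, h⟩ := mdata_rot D (m := r) hr.symm hc
  rw [lead_shift0] at hr1
  rw [exc_shift hright] at hi1
  obtain ⟨-, hlabs, -⟩ := key r₁ hr1 hi1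
  have hr₁ : -r₁ = -(Real.log |l.re| : ℂ) + Real.pi * exc L m * Complex.I := by
    rw [hlabs]
    apply Complex.ext
    · simp
    · rw [Complex.neg_im, hi1]; simp
  refine Asymptotics.IsBigO.of_bound C ?_
  filter_upwards [eventually_ge_atTop T₀] with T hT
  have hT1 : 0 < T := by linarith
  have h5 := h T hT
  rw [Real.norm_eq_abs, abs_of_pos (by positivity : 0 < 1 / T), mul_one_div]
  refine le_trans (le_of_eq ?_) h5
  rw [cmean_trm H, ← norm_neg]
  congr 1
  linear_combination hr₁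

end Pool.Agent.V5helper41.LQ
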