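import Mathlib
import Pool.Agent.V5helper41.LQ.Law

/-!
# The equivalences
-/

set_option autoImplicit false

namespace Pool.Agent.V5helper41.LQ

open Complex Filter Topology Set Asymptotics
open Pool.Agent.W189.ML Pool.Agent.W189.LC Pool.Agent.W187.UR

variable {A : Nat.Primes → Multiset ℂ} {m b : ℕ} {S : Finset Nat.Primes}

theorem trm_summable (H : Tame A m b S) (c : ℝ) {T : ℝ} (hT : 0 < T) :
    Summable fun x => ‖trm A m c T x‖ := by
  refine Summable.of_nonneg_of_le (fun x => norm_nonneg _) (fun x => ?_)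
    ((summable_cf H (σ := 2) (by norm_num)).mul_left (Real.exp (Real.exp (2 * T)) + 1))
  rw [trm_eq H, norm_mul, norm_mul, Complex.norm_exp_ofReal_mul_I, mul_one, Complex.norm_real,
    Complex.norm_real, Real.norm_eq_abs, Real.norm_eq_abs]
  have hv : 0 ≤ lm x / T := div_nonneg (lm_nonneg x) hT.le
  rw [abs_of_nonneg (om_nonneg hv)]
  have h1 := om_le (a := 2 * T) (by positivity) hv
  have h2 : 2 * T * (lm x / T) = 2 * lm x := by
    field_simp
  rw [h2] at h1
  calc |cf A m x| * om (lm x / T) ≤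
      |cf A m x| * ((Real.exp (Real.exp (2 * T)) + 1) * Real.exp (-(2 * lm x))) :=
        mul_le_mul_of_nonneg_left h1 (abs_nonneg _)
    _ = _ := by ring

/-- the exponential form -/
lemma exp_form {U : ℝ → ℂ} {r e : ℤ} {l : ℝ} {Λ : ℂ} (hl0 : l ≠ 0) (hl : l = (-1) ^ e * |l|)
    (h : (fun T : ℝ => U T + r * (Real.log T - Λ) - Real.log |l| + Real.pi * e * I)
      =O[atTop] (fun T : ℝ => 1 / T)) :
    Tendsto (fun T : ℝ => exp (U T) * (T : ℂ) ^ r) atTop (𝓝 (l * exp (r * Λ))) := by
  have h1 : Tendsto (fun T : ℝ => U T + r * (Real.log T - Λ) - Real.log |l| + Real.pi * e * I)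
      atTop (𝓝 0) := by
    refine h.trans_tendsto ?_
    exact tendsto_const_nhds.div_atTop tendsto_id
  have h2 : Tendsto (fun T : ℝ => exp (U T + r * (Real.log T - Λ) - Real.log |l| +
      Real.pi * e * I) * (l * exp (r * Λ))) atTop (𝓝 (1 * (l * exp (r * Λ)))) := by
    refine Tendsto.mul_const _ ?_
    have := (Complex.continuous_exp.tendsto 0).comp h1
    simpa [Function.comp_def] using this
  rw [one_mul] at h2
  refine h2.congr' ?_
  filter_upwards [eventually_gt_atTop 0] with T hT
  have h3 : (T : ℂ) ^ r = exp (r * Real.log T) := by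
    rw [Complex.exp_int_mul, ← Complex.ofReal_exp, Real.exp_log hT]
  have h4 : (l : ℂ) = exp (Real.log |l| - Real.pi * e * I) := by
    have h5 : exp (-(Real.pi * e * I)) = (-1) ^ e := by
      have h6 : -(Real.pi * e * I : ℂ) = ((-e : ℤ) : ℂ) * (Real.pi * I) := by
        push_cast
        ring
      rw [h6, Complex.exp_int_mul, Complex.exp_pi_mul_I, zpow_neg, ← inv_zpow]
      norm_num
    rw [sub_eq_add_neg, Complex.exp_add, h5, ← Complex.ofReal_exp,
      Real.exp_log (abs_pos.2 hl0)]
    nth_rewrite 1 [hl]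
    push_cast
    ring
  rw [h3, ← Complex.exp_add, h4, ← Complex.exp_add, ← Complex.exp_add]
  congr 1
  ring

/-- uniqueness of the exponent -/
lemma exp_unique {U : ℝ → ℂ} {r ρ : ℤ} {a b : ℂ} (ha : a ≠ 0) (hb : b ≠ 0)
    (h : Tendsto (fun T : ℝ => exp (U T) * (T : ℂ) ^ r) atTop (𝓝 a))
    (h1 : Tendsto (fun T : ℝ => exp (U T) * (T : ℂ) ^ ρ) atTop (𝓝 b)) : ρ = r ∧ b = a := by
  have h2 : Tendsto (fun T : ℝ => (T : ℂ) ^ (ρ - r)) atTop (𝓝 (b / a)) := by
    refine (h1.div h ha).congr' ?_
    filter_upwards [eventually_gt_atTop 0] with T hT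
    have hTc : (T : ℂ) ≠ 0 := by exact_mod_cast hT.ne'
    have h3 := Complex.exp_ne_zero (U T)
    rw [zpow_sub₀ hTc]
    have h4 : (T : ℂ) ^ r ≠ 0 := zpow_ne_zero _ hTc
    simp only [Pi.div_apply]
    field_simp
  have h3 : Tendsto (fun T : ℝ => T ^ (ρ - r)) atTop (𝓝 ‖b / a‖) := by
    refine h2.norm.congr' ?_
    filter_upwards [eventually_gt_atTop 0] with T hT
    rw [norm_zpow, Complex.norm_real, Real.norm_eq_abs, abs_of_pos hT]
  have h4 : ρ - r = 0 := by
    rcases lt_trichotomy (ρ - r) 0 with h5 | h5 | h5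
    · exfalso
      have h6 : Tendsto (fun T : ℝ => T ^ (ρ - r)) atTop (𝓝 0) := tendsto_zpow_atTop_zero h5
      have h7 := tendsto_nhds_unique h3 h6
      rw [norm_eq_zero] at h7
      exact div_ne_zero hb ha h7
    · exact h5
    · exfalso
      have h6 : Tendsto (fun T : ℝ => T ^ (ρ - r)) atTop atTop := by
        obtain ⟨n, hn⟩ := Int.eq_ofNat_of_zero_le h5.le
        rw [hn]
        simp only [zpow_natCast]
        refine tendsto_pow_atTop ?_
        intro h0
        rw [h0] at hn
        rw [hn] at h5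
        exact absurd h5 (by simp)
      exact not_tendsto_nhds_of_tendsto_atTop h6 _ h3
  have h5 : ρ = r := by linarith
  refine ⟨h5, ?_⟩
  rw [h5] at h1
  exact tendsto_nhds_unique h1 h

/-- the logarithmic form -/
lemma log_form {U : ℝ → ℂ} {r e : ℤ} {l : ℝ} {Λ : ℂ}
    (h : (fun T : ℝ => U T + r * (Real.log T - Λ) - Real.log |l| + Real.pi * e * I)
      =O[atTop] (fun T : ℝ => 1 / T)) :
    Tendsto (fun T : ℝ => (U T).re / Real.log T) atTop (𝓝 (-(r : ℝ))) := by
  have h1 : Tendsto (fun T : ℝ => U T + r * (Real.log T - Λ) - Real.log |l| + Real.pi * e * I)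
      atTop (𝓝 0) := by
    refine h.trans_tendsto ?_
    exact tendsto_const_nhds.div_atTop tendsto_id
  have h2 : Tendsto (fun T : ℝ => (U T).re + r * Real.log T - (r * Λ.re + Real.log |l|))
      atTop (𝓝 0) := by
    have h3 := (Complex.continuous_re.tendsto 0).comp h1
    rw [Complex.zero_re] at h3
    refine h3.congr fun T => ?_
    simp only [Function.comp_apply, Complex.add_re, Complex.sub_re, Complex.ofReal_re,
      Complex.mul_re, Complex.intCast_re, Complex.intCast_im, Complex.sub_im, Complex.ofReal_im,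
      Complex.I_re, Complex.I_im, Complex.mul_im]
    ring
  have h4 := Real.tendsto_log_atTop
  have h5 : Tendsto (fun T : ℝ => ((U T).re + r * Real.log T - (r * Λ.re + Real.log |l|)) /
      Real.log T) atTop (𝓝 0) := h2.div_atTop h4
  have h6 : Tendsto (fun T : ℝ => (r * Λ.re + Real.log |l|) / Real.log T) atTop (𝓝 0) :=
    tendsto_const_nhds.div_atTop h4
  have h7 := (h5.add h6).sub_const (r : ℝ)
  rw [add_zero, zero_sub] at h7
  refine h7.congr' ?_
  filter_upwards [eventually_gt_atTop 1] with T hT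
  have h8 : Real.log T ≠ 0 := (Real.log_pos hT).ne'
  field_simp
  ring

end Pool.Agent.V5helper41.LQ
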